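import Pool.Agent.NPL.Step
import Pool.Agent.VAC.Seq

/-!
# Total variation distance at longer times (MP_64152e_pr)
-/

set_option autoImplicit false
set_option linter.unusedSectionVars false

namespace Pool.Agent.NPL

open Finset Matrix
open Pool.Agent.VAC (Chain tvDist tmix tvDist_le_iff tv_set)

variable {V : Type} [Fintype V] [DecidableEq V]
variable {P : Matrix V V ℝ} {p lam : ℝ}

lemma ss_of_chain (h : Chain P p lam) : SS P :=
  ⟨h.nn, h.row, fun y => by
    rw [← h.row y]
    exact Finset.sum_congr rfl fun x _ => h.sym x y⟩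

lemma pow_inv (φ : V ≃ V) (hφ : ∀ a b, P (φ a) (φ b) = P a b) (t : ℕ) (a b : V) :
    (P ^ t) (φ a) (φ b) = (P ^ t) a b := by
  induction t generalizing a b with
  | zero => simp [Matrix.one_apply]
  | succ t ih =>
    rw [pow_succ, Matrix.mul_apply, Matrix.mul_apply, ← Equiv.sum_comp φ]
    apply Finset.sum_congr rfl
    intro z _
    rw [ih, hφ]

/-- the large part of the law after `t` steps -/
noncomputable def uu (P : Matrix V V ℝ) (t : ℕ) (K : ℝ) (x : V) : ℝ :=
  ∑ y, (P ^ t) x y * big (P ^ t) K x y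

lemma uu_inv (φ : V ≃ V) (hφ : ∀ a b, P (φ a) (φ b) = P a b) (t : ℕ) (K : ℝ) (x : V) :
    uu P t K (φ x) = uu P t K x := by
  unfold uu
  rw [← Equiv.sum_comp φ]
  apply Finset.sum_congr rfl
  intro z _
  unfold big
  rw [pow_inv φ hφ]

lemma tvDist_inv (φ : V ≃ V) (hφ : ∀ a b, P (φ a) (φ b) = P a b) (t : ℕ) (x : V) :
    tvDist P t (φ x) = tvDist P t x := by
  unfold tvDist
  rw [← Equiv.sum_comp φ]
  congr 1
  apply Finset.sum_congr rfl
  intro z _
  rw [pow_inv φ hφ]

/-- The chain looks the same from all points. -/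
def Homog (P : Matrix V V ℝ) : Prop :=
  ∀ x y : V, ∃ φ : V ≃ V, φ x = y ∧ ∀ a b, P (φ a) (φ b) = P a b

lemma Homog.uu (hP : Homog P) (t : ℕ) (K : ℝ) (x y : V) : uu P t K x = uu P t K y := by
  obtain ⟨φ, rfl, hφ⟩ := hP x y
  exact (uu_inv φ hφ t K x).symm

lemma Homog.tvDist (hP : Homog P) (t : ℕ) (x y : V) : tvDist P t x = tvDist P t y := by
  obtain ⟨φ, rfl, hφ⟩ := hP x y
  exact (tvDist_inv φ hφ t x).symm

lemma uu_nonneg (h : SS P) (t : ℕ) (K : ℝ) (x : V) : 0 ≤ uu P t K x :=
  Finset.sum_nonneg fun y _ => mul_nonneg ((h.pow t).nn x y) (big_nonneg _ _ _ _)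

lemma uu_le_one (h : SS P) (t : ℕ) (K : ℝ) (x : V) : uu P t K x ≤ 1 := by
  rw [← (h.pow t).row x]
  apply Finset.sum_le_sum
  intro y _
  exact mul_le_of_le_one_right ((h.pow t).nn x y) (big_le_one _ _ _ _)

/-- the large part is bounded by the total variation distance -/
lemma uu_le (h : SS P) (t : ℕ) {K : ℝ} (hK : 0 < K) (x : V) :
    uu P t K x ≤ tvDist P t x + 1 / K := by
  have hne : Nonempty V := ⟨x⟩
  have hn : (0 : ℝ) < Fintype.card V := by exact_mod_cast Fintype.card_pos
  set S : Finset V := Finset.univ.filter (fun y => K / Fintype.card V < (P ^ t) x y) with hS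
  have h1 := tv_set (fun y => (P ^ t) x y) ((h.pow t).row x) Sᶜ (d := tvDist P t x)
    ((tvDist_le_iff P t x _).1 le_rfl)
  have h2 : ∑ y ∈ S, (P ^ t) x y + ∑ y ∈ Sᶜ, (P ^ t) x y = 1 := by
    rw [Finset.sum_add_sum_compl, (h.pow t).row]
  have h3 : uu P t K x = ∑ y ∈ S, (P ^ t) x y := by
    unfold uu big
    rw [hS, Finset.sum_filter]
    apply Finset.sum_congr rfl
    intro y _
    split_ifs <;> simp
  have h4 : (S.card : ℝ) ≤ Fintype.card V / K := by
    have h5 := sum_big_le (h.pow t) hK x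
    have h6 : ∑ y, big (P ^ t) K x y = (S.card : ℝ) := by
      unfold big
      rw [← Finset.sum_filter, ← hS]
      simp
    rwa [h6] at h5
  have h5 : ((Sᶜ.card : ℕ) : ℝ) = Fintype.card V - S.card := by
    rw [Finset.card_compl, Nat.cast_sub (Finset.card_le_univ S)]
  rw [h5, sub_div, div_self hn.ne'] at h1
  have h6 : (S.card : ℝ) / Fintype.card V ≤ 1 / K := by
    rw [div_le_iff₀ hn]
    calc (S.card : ℝ) ≤ Fintype.card V / K := h4
      _ = 1 / K * Fintype.card V := by ring
  rw [h3]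
  linarith

lemma tvDist_le_one (h : SS P) (t : ℕ) (x : V) : tvDist P t x ≤ 1 := by
  have hne : Nonempty V := ⟨x⟩
  have hn : (0 : ℝ) < Fintype.card V := by exact_mod_cast Fintype.card_pos
  rw [tvDist_le_iff]
  calc ∑ y, |(P ^ t) x y - 1 / Fintype.card V|
      ≤ ∑ y, ((P ^ t) x y + 1 / Fintype.card V) := by
        apply Finset.sum_le_sum
        intro y _
        have h1 := (h.pow t).nn x y
        have h2 : (0 : ℝ) < 1 / Fintype.card V := by positivity
        rw [abs_le]
        constructor <;> linarith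
    _ = 2 * 1 := by
        rw [Finset.sum_add_distrib, (h.pow t).row, Finset.sum_const, Finset.card_univ,
          nsmul_eq_mul]
        field_simp
        norm_num

lemma tvDist_nonneg (t : ℕ) (x : V) : 0 ≤ tvDist P t x := by
  unfold tvDist
  have : 0 ≤ ∑ y : V, |(P ^ t) x y - 1 / (Fintype.card V : ℝ)| :=
    Finset.sum_nonneg fun y _ => abs_nonneg _
  linarith

/-- the distance is nonincreasing -/
lemma tvDist_anti (h : SS P) (s t : ℕ) (x : V) : tvDist P (s + t) x ≤ tvDist P s x := by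
  have hne : Nonempty V := ⟨x⟩
  have hn : (0 : ℝ) < Fintype.card V := by exact_mod_cast Fintype.card_pos
  unfold tvDist
  apply mul_le_mul_of_nonneg_left _ (by norm_num)
  have h1 : ∀ y, (P ^ (s + t)) x y - 1 / (Fintype.card V : ℝ) =
      ∑ z, ((P ^ s) x z - 1 / (Fintype.card V : ℝ)) * (P ^ t) z y := by
    intro y
    rw [pow_add, Matrix.mul_apply]
    simp_rw [sub_mul]
    rw [Finset.sum_sub_distrib, ← Finset.mul_sum, (h.pow t).col, mul_one]
  calc ∑ y, |(P ^ (s + t)) x y - 1 / (Fintype.card V : ℝ)|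
      ≤ ∑ y, ∑ z, |(P ^ s) x z - 1 / (Fintype.card V : ℝ)| * (P ^ t) z y := by
        apply Finset.sum_le_sum
        intro y _
        rw [h1]
        refine (Finset.abs_sum_le_sum_abs _ _).trans (le_of_eq ?_)
        apply Finset.sum_congr rfl
        intro z _
        rw [abs_mul, abs_of_nonneg ((h.pow t).nn z y)]
    _ = ∑ z, |(P ^ s) x z - 1 / (Fintype.card V : ℝ)| := by
        rw [Finset.sum_comm]
        apply Finset.sum_congr rfl
        intro z _
        rw [← Finset.mul_sum, (h.pow t).row, mul_one]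

/-- The law after `t + s` steps, from its large part after `t` steps. -/
theorem split_le (h : Chain P p lam) (t s : ℕ) (x : V) {K ε d : ℝ} (hK : 0 < K) (hε : 0 ≤ ε)
    (hs : (1 - lam) ^ s * K ≤ ε ^ 2) (hd : ∀ y, tvDist P s y ≤ d) :
    tvDist P (t + s) x ≤ ε / 2 + uu P t K x * d := by
  have hne : Nonempty V := ⟨x⟩
  have hn : (0 : ℝ) < Fintype.card V := by exact_mod_cast Fintype.card_pos
  have hss := ss_of_chain h
  set n : ℝ := (Fintype.card V : ℝ) with hndef
  set f : V → ℝ := fun y => (P ^ t) x y * (1 - big (P ^ t) K x y) with hf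
  set f' : V → ℝ := fun y => (P ^ t) x y * big (P ^ t) K x y with hf'
  have hfnn : ∀ y, 0 ≤ f y := fun y =>
    mul_nonneg ((hss.pow t).nn x y) (by linarith [big_le_one (P ^ t) K x y])
  have hfnn' : ∀ y, 0 ≤ f' y := fun y => mul_nonneg ((hss.pow t).nn x y) (big_nonneg _ _ _ _)
  have hff : ∀ y, (P ^ t) x y = f y + f' y := by
    intro y
    simp only [hf, hf']
    ring
  have hsum1 : ∑ y, f y + ∑ y, f' y = 1 := by
    rw [← Finset.sum_add_distrib, ← (hss.pow t).row x]
    exact Finset.sum_congr rfl fun y _ => (hff y).symm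
  have hsum' : ∑ y, f' y = uu P t K x := rfl
  have hfle : ∀ y, f y ≤ K / n := fun y => mul_one_sub_big hK.le x y
  have hfsq : ∑ y, f y ^ 2 ≤ K / n := by
    have h3 : ∑ y, f y ≤ 1 := by
      have : 0 ≤ ∑ y, f' y := Finset.sum_nonneg fun y _ => hfnn' y
      linarith
    calc ∑ y, f y ^ 2 ≤ ∑ y, K / n * f y := by
          apply Finset.sum_le_sum
          intro y _
          rw [sq]
          exact mul_le_mul_of_nonneg_right (hfle y) (hfnn y)
      _ = K / n * ∑ y, f y := by rw [Finset.mul_sum]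
      _ ≤ K / n * 1 := mul_le_mul_of_nonneg_left h3 (by positivity)
      _ = _ := mul_one _
  have hpart := h.l2_part f s hfsq hε hs
  have hpart' : ∑ y, |(P ^ s *ᵥ f') y - (∑ z, f' z) / n| ≤ (∑ z, f' z) * (2 * d) := by
    have h4 : ∀ y, (P ^ s *ᵥ f') y - (∑ z, f' z) / n = ∑ z, f' z * ((P ^ s) z y - 1 / n) := by
      intro y
      simp only [Matrix.mulVec, dotProduct]
      rw [Finset.sum_div, ← Finset.sum_sub_distrib]
      apply Finset.sum_congr rfl
      intro z _
      rw [h.pow_sym s y z]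
      ring
    calc ∑ y, |(P ^ s *ᵥ f') y - (∑ z, f' z) / n|
        ≤ ∑ y, ∑ z, f' z * |(P ^ s) z y - 1 / n| := by
          apply Finset.sum_le_sum
          intro y _
          rw [h4]
          refine (Finset.abs_sum_le_sum_abs _ _).trans (le_of_eq ?_)
          apply Finset.sum_congr rfl
          intro z _
          rw [abs_mul, abs_of_nonneg (hfnn' z)]
      _ = ∑ z, f' z * ∑ y, |(P ^ s) z y - 1 / n| := by
          rw [Finset.sum_comm]
          apply Finset.sum_congr rfl
          intro z _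
          rw [← Finset.mul_sum]
      _ ≤ ∑ z, f' z * (2 * d) := by
          apply Finset.sum_le_sum
          intro z _
          exact mul_le_mul_of_nonneg_left ((tvDist_le_iff P s z d).1 (hd z)) (hfnn' z)
      _ = _ := by rw [Finset.sum_mul]
  have hdec : ∀ y, (P ^ (t + s)) x y - 1 / n =
      ((P ^ s *ᵥ f) y - (∑ z, f z) / n) + ((P ^ s *ᵥ f') y - (∑ z, f' z) / n) := by
    intro y
    have h3 : (P ^ (t + s)) x y = (P ^ s *ᵥ f) y + (P ^ s *ᵥ f') y := by
      rw [pow_add, Matrix.mul_apply]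
      simp only [Matrix.mulVec, dotProduct]
      rw [← Finset.sum_add_distrib]
      apply Finset.sum_congr rfl
      intro z _
      rw [h.pow_sym s z y, hff z]
      ring
    have h4 : (1 : ℝ) / n = (∑ z, f z) / n + (∑ z, f' z) / n := by
      rw [← add_div, hsum1]
    rw [h3, h4]
    ring
  rw [tvDist_le_iff, ← hndef]
  calc ∑ y, |(P ^ (t + s)) x y - 1 / n|
      ≤ ∑ y, (|(P ^ s *ᵥ f) y - (∑ z, f z) / n| + |(P ^ s *ᵥ f') y - (∑ z, f' z) / n|) := by
        apply Finset.sum_le_sum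
        intro y _
        rw [hdec]
        exact abs_add_le _ _
    _ = ∑ y, |(P ^ s *ᵥ f) y - (∑ z, f z) / n| +
        ∑ y, |(P ^ s *ᵥ f') y - (∑ z, f' z) / n| := Finset.sum_add_distrib
    _ ≤ ε + (∑ z, f' z) * (2 * d) := add_le_add hpart hpart'
    _ = 2 * (ε / 2 + uu P t K x * d) := by
        rw [hsum']
        ring

/-- submultiplicativity up to the relaxation time -/
theorem submult (h : Chain P p lam) (t r t' : ℕ) (x : V) {K ε d d' : ℝ} (hK : 0 < K)
    (hε : 0 ≤ ε) (hr : (1 - lam) ^ r * K ≤ ε ^ 2) (hd : tvDist P t x ≤ d)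
    (hd' : ∀ y, tvDist P t' y ≤ d') :
    tvDist P (t + (t' + r)) x ≤ ε / 2 + (d + 1 / K) * d' := by
  have hss := ss_of_chain h
  have h0 : 0 ≤ 1 - lam := by linarith [h.lam1]
  have h1 : (1 - lam) ^ (t' + r) * K ≤ ε ^ 2 := by
    refine le_trans ?_ hr
    apply mul_le_mul_of_nonneg_right _ hK.le
    exact pow_le_pow_of_le_one h0 (by linarith [h.lam0]) (by omega)
  have h2 := split_le h t (t' + r) x hK hε h1 (d := d')
    (fun y => (tvDist_anti hss t' r y).trans (hd' y))
  refine h2.trans ?_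
  have h3 := uu_le hss t hK x
  have h4 : 0 ≤ d' := (tvDist_nonneg t' x).trans (hd' x)
  have h5 : uu P t K x * d' ≤ (d + 1 / K) * d' :=
    mul_le_mul_of_nonneg_right (by linarith) h4
  linarith

/-- The function `(1 - θ) v + θ v²`. -/
def FF (θ v : ℝ) : ℝ := v - θ * (v * (1 - v))

lemma FF_le {θ v w δ : ℝ} (hθ0 : 0 ≤ θ) (hθ1 : θ ≤ 1) (hv0 : 0 ≤ v) (hv1 : v ≤ 1)
    (hw1 : w ≤ 1) (hδ : 0 ≤ δ) (hvw : v ≤ w + δ) (hw0 : 0 ≤ w) :
    FF θ v ≤ FF θ w + 2 * δ := by
  unfold FF
  rcases le_total v w with h | h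
  · have h1 : w - θ * (w * (1 - w)) - (v - θ * (v * (1 - v))) =
        (w - v) * (1 - θ + θ * (v + w)) := by ring
    have h2 : 0 ≤ (w - v) * (1 - θ + θ * (v + w)) := by
      apply mul_nonneg (by linarith)
      have := mul_nonneg hθ0 (add_nonneg hv0 hw0)
      linarith
    linarith
  · have h1 : v - θ * (v * (1 - v)) - (w - θ * (w * (1 - w))) =
        (v - w) * (1 - θ + θ * (v + w)) := by ring
    have h2 : 1 - θ + θ * (v + w) ≤ 2 := by
      have : θ * (v + w) ≤ θ * 2 := mul_le_mul_of_nonneg_left (by linarith) hθ0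
      linarith
    have h3 : (v - w) * (1 - θ + θ * (v + w)) ≤ (v - w) * 2 :=
      mul_le_mul_of_nonneg_left h2 (by linarith)
    linarith

/-- The main inequality for homogeneous chains. -/
theorem main_step (h : Chain P p lam) (hP : Homog P) (s k j r : ℕ) (hk : 1 ≤ k) (hjk : j ≤ k)
    (x : V) {K L ε : ℝ} (hK : 0 < K) (hL : 0 < L) (hε : 0 ≤ ε)
    (hr : (1 - lam) ^ r * (K * L) ≤ ε ^ 2) :
    tvDist P (s * (k + j) + r) x ≤
      FF ((j : ℝ) / k) (tvDist P (s * k) x) + 2 / K + (j + 1) / L + ε / 2 := by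
  have hne : Nonempty V := ⟨x⟩
  have hss := ss_of_chain h
  have hk0 : (0 : ℝ) < k := by exact_mod_cast hk
  have hR : SS (P ^ s) := hss.pow s
  have h1 := big_mass hR hK hL k j hk hjk (uu P (s * k) K x) (uu P (s * (k + j)) (K * L) x)
    (by
      intro y
      rw [hP.uu (s * k) K x y, uu, ← pow_mul])
    (by
      intro y
      rw [hP.uu (s * (k + j)) (K * L) x y, uu, ← pow_mul])
  have h2 := split_le h (s * (k + j)) r x (mul_pos hK hL) hε hr
    (fun y => tvDist_le_one hss r y)
  have h3 : FF ((j : ℝ) / k) (uu P (s * k) K x) ≤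
      FF ((j : ℝ) / k) (tvDist P (s * k) x) + 2 * (1 / K) := by
    apply FF_le (by positivity) _ (uu_nonneg hss _ _ _) (uu_le_one hss _ _ _)
      (tvDist_le_one hss _ _) (by positivity) (uu_le hss _ hK x) (tvDist_nonneg _ _)
    rw [div_le_one hk0]
    exact_mod_cast hjk
  have h4 : uu P (s * k) K x - (j : ℝ) / k * (uu P (s * k) K x * (1 - uu P (s * k) K x)) =
      FF ((j : ℝ) / k) (uu P (s * k) K x) := rfl
  rw [h4] at h1
  have h5 : 2 * (1 / K) = 2 / K := by ring
  linarith

end Pool.Agent.NPL
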