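import Mathlib

/-!
# Sums over paths of a doubly stochastic matrix (MP_64152e_pr)

`pe R N x F` is the expectation of the function `F` of the path `ω` of length `N` started at `x`
whose steps are taken according to the matrix `R` (the path is continued as a constant).
-/

set_option autoImplicit false
set_option linter.unusedSectionVars false

namespace Pool.Agent.NPL

open Finset Matrix

variable {V : Type*} [Fintype V] [DecidableEq V]

/-- prepend a point to a path -/
def pcons (x : V) (ω : ℕ → V) : ℕ → V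
  | 0 => x
  | i + 1 => ω i

omit [Fintype V] [DecidableEq V] in
@[simp] lemma pcons_zero (x : V) (ω : ℕ → V) : pcons x ω 0 = x := rfl

omit [Fintype V] [DecidableEq V] in
@[simp] lemma pcons_succ (x : V) (ω : ℕ → V) (i : ℕ) : pcons x ω (i + 1) = ω i := rfl

/-- expectation of a function of the path of length `N` started at `x` -/
noncomputable def pe (R : Matrix V V ℝ) : ℕ → V → ((ℕ → V) → ℝ) → ℝ
  | 0, x, F => F (fun _ => x)
  | N + 1, x, F => ∑ y, R x y * pe R N y (fun ω => F (pcons x ω))

/-- Symmetric stochastic matrices. -/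
structure SS (R : Matrix V V ℝ) : Prop where
  nn : ∀ x y, 0 ≤ R x y
  row : ∀ x, ∑ y, R x y = 1
  col : ∀ y, ∑ x, R x y = 1

namespace SS

variable {R : Matrix V V ℝ}

lemma pow (h : SS R) (t : ℕ) : SS (R ^ t) := by
  induction t with
  | zero =>
    refine ⟨fun x y => ?_, fun x => ?_, fun y => ?_⟩
    · rw [pow_zero, Matrix.one_apply]
      split_ifs <;> norm_num
    · simp [Matrix.one_apply]
    · simp [Matrix.one_apply]
  | succ t ih =>
    refine ⟨fun x y => ?_, fun x => ?_, fun y => ?_⟩
    · rw [pow_succ, Matrix.mul_apply]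
      exact Finset.sum_nonneg fun z _ => mul_nonneg (ih.nn x z) (h.nn z y)
    · simp_rw [pow_succ, Matrix.mul_apply]
      rw [Finset.sum_comm]
      have h1 : ∀ z, ∑ y, (R ^ t) x z * R z y = (R ^ t) x z := by
        intro z
        rw [← Finset.mul_sum, h.row, mul_one]
      rw [Finset.sum_congr rfl fun z _ => h1 z, ih.row]
    · simp_rw [pow_succ, Matrix.mul_apply]
      rw [Finset.sum_comm]
      have h1 : ∀ z, ∑ x, (R ^ t) x z * R z y = R z y := by
        intro z
        rw [← Finset.sum_mul, ih.col, one_mul]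
      rw [Finset.sum_congr rfl fun z _ => h1 z, h.col]

end SS

section pe

variable {R : Matrix V V ℝ}

lemma pe_succ (N : ℕ) (x : V) (F : (ℕ → V) → ℝ) :
    pe R (N + 1) x F = ∑ y, R x y * pe R N y (fun ω => F (pcons x ω)) := rfl

lemma pe_mono (h : SS R) (N : ℕ) (x : V) {F G : (ℕ → V) → ℝ} (hFG : ∀ ω, F ω ≤ G ω) :
    pe R N x F ≤ pe R N x G := by
  induction N generalizing x F G with
  | zero => exact hFG _
  | succ N ih =>
    rw [pe_succ, pe_succ]
    apply Finset.sum_le_sum
    intro y _
    exact mul_le_mul_of_nonneg_left (ih y fun ω => hFG _) (h.nn x y)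

lemma pe_add (N : ℕ) (x : V) (F G : (ℕ → V) → ℝ) :
    pe R N x (fun ω => F ω + G ω) = pe R N x F + pe R N x G := by
  induction N generalizing x F G with
  | zero => rfl
  | succ N ih =>
    rw [pe_succ, pe_succ, pe_succ, ← Finset.sum_add_distrib]
    apply Finset.sum_congr rfl
    intro y _
    rw [ih]
    ring

lemma pe_sub (N : ℕ) (x : V) (F G : (ℕ → V) → ℝ) :
    pe R N x (fun ω => F ω - G ω) = pe R N x F - pe R N x G := by
  induction N generalizing x F G with
  | zero => rfl
  | succ N ih =>
    rw [pe_succ, pe_succ, pe_succ, ← Finset.sum_sub_distrib]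
    apply Finset.sum_congr rfl
    intro y _
    rw [ih]
    ring

lemma pe_sum {ι : Type*} (s : Finset ι) (N : ℕ) (x : V) (F : ι → (ℕ → V) → ℝ) :
    pe R N x (fun ω => ∑ i ∈ s, F i ω) = ∑ i ∈ s, pe R N x (F i) := by
  classical
  induction s using Finset.induction_on with
  | empty =>
    simp only [Finset.sum_empty]
    induction N generalizing x with
    | zero => rfl
    | succ N ih =>
      rw [pe_succ]
      exact Finset.sum_eq_zero fun y _ => by rw [ih y, mul_zero]
  | insert a s ha ih =>
    simp only [Finset.sum_insert ha]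
    rw [pe_add, ih]

lemma pe_const (h : SS R) (N : ℕ) (x : V) (c : ℝ) : pe R N x (fun _ => c) = c := by
  induction N generalizing x with
  | zero => rfl
  | succ N ih =>
    rw [pe_succ]
    simp_rw [ih]
    rw [← Finset.sum_mul, h.row, one_mul]

/-- the path starts at `x` -/
lemma pe_start (N : ℕ) (x : V) (F : V → (ℕ → V) → ℝ) :
    pe R N x (fun ω => F (ω 0) ω) = pe R N x (fun ω => F x ω) := by
  cases N with
  | zero => rfl
  | succ N => rfl

/-- the shifted path -/
lemma pe_shift (h : SS R) (N : ℕ) (F : (ℕ → V) → ℝ) :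
    ∑ x, pe R (N + 1) x (fun ω => F (fun i => ω (i + 1))) = ∑ x, pe R N x F := by
  simp_rw [pe_succ]
  rw [Finset.sum_comm]
  apply Finset.sum_congr rfl
  intro y _
  have h1 : ∀ x, (R x y * pe R N y fun ω => F fun i => pcons x ω (i + 1)) =
      R x y * pe R N y F := fun x => rfl
  rw [Finset.sum_congr rfl fun x _ => h1 x, ← Finset.sum_mul, h.col, one_mul]

/-- a function of the first steps -/
lemma pe_last (h : SS R) (N : ℕ) (x : V) (F : (ℕ → V) → ℝ)
    (hF : ∀ ω ω' : ℕ → V, (∀ i ≤ N, ω i = ω' i) → F ω = F ω') :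
    pe R (N + 1) x F = pe R N x F := by
  induction N generalizing x F with
  | zero =>
    rw [pe_succ]
    have h1 : ∀ y, pe R 0 y (fun ω => F (pcons x ω)) = F (fun _ => x) := by
      intro y
      apply hF
      intro i hi
      have hi0 : i = 0 := by omega
      subst hi0
      rfl
    simp_rw [h1]
    rw [← Finset.sum_mul, h.row, one_mul]
    rfl
  | succ N ih =>
    rw [pe_succ, pe_succ]
    apply Finset.sum_congr rfl
    intro y _
    rw [ih]
    intro ω ω' hω
    apply hF
    intro i hi
    cases i with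
    | zero => rfl
    | succ i => exact hω i (by omega)

lemma pe_one (h : SS R) (l N : ℕ) (hN : l ≤ N) (x : V) (F : V → ℝ) :
    pe R N x (fun ω => F (ω l)) = ∑ d, (R ^ l) x d * F d := by
  induction l generalizing N x with
  | zero =>
    rw [pe_start N x (fun a _ => F a), pe_const h]
    simp [Matrix.one_apply]
  | succ l ih =>
    obtain ⟨N, rfl⟩ : ∃ N', N = N' + 1 := ⟨N - 1, by omega⟩
    rw [pe_succ]
    have h1 : ∀ y, pe R N y (fun ω => F (pcons x ω (l + 1))) = ∑ d, (R ^ l) y d * F d :=
      fun y => ih N (by omega) y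
    simp_rw [h1]
    simp_rw [pow_succ', Matrix.mul_apply, Finset.sum_mul, Finset.mul_sum]
    rw [Finset.sum_comm]
    apply Finset.sum_congr rfl
    intro d _
    apply Finset.sum_congr rfl
    intro y _
    ring

lemma pe_two (h : SS R) (j l N : ℕ) (hN : j + l ≤ N) (x : V) (F : V → V → ℝ) :
    pe R N x (fun ω => F (ω j) (ω (j + l))) =
      ∑ c, (R ^ j) x c * ∑ d, (R ^ l) c d * F c d := by
  induction j generalizing N x with
  | zero =>
    rw [pe_start N x (fun a ω => F a (ω (0 + l)))]
    simp only [zero_add]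
    rw [pe_one h l N (by omega) x (F x)]
    simp [Matrix.one_apply]
  | succ j ih =>
    obtain ⟨N, rfl⟩ : ∃ N', N = N' + 1 := ⟨N - 1, by omega⟩
    rw [pe_succ]
    have h1 : ∀ y, pe R N y (fun ω => F (pcons x ω (j + 1)) (pcons x ω (j + 1 + l))) =
        ∑ c, (R ^ j) y c * ∑ d, (R ^ l) c d * F c d := by
      intro y
      rw [← ih N (by omega) y]
      congr 1
      funext ω
      have h2 : j + 1 + l = (j + l) + 1 := by omega
      rw [h2, pcons_succ, pcons_succ]
    simp_rw [h1]
    rw [pow_succ']
    simp_rw [Matrix.mul_apply]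
    have h4 : ∀ c, (∑ z, R x z * (R ^ j) z c) * ∑ d, (R ^ l) c d * F c d =
        ∑ z, R x z * ((R ^ j) z c * ∑ d, (R ^ l) c d * F c d) := by
      intro c
      rw [Finset.sum_mul]
      apply Finset.sum_congr rfl
      intro z _
      ring
    rw [Finset.sum_congr rfl fun c _ => h4 c, Finset.sum_comm]
    apply Finset.sum_congr rfl
    intro y _
    rw [Finset.mul_sum]

lemma pe_three (h : SS R) (i j l N : ℕ) (hN : i + j + l ≤ N) (x : V) (F : V → V → V → ℝ) :
    pe R N x (fun ω => F (ω i) (ω (i + j)) (ω (i + j + l))) =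
      ∑ b, (R ^ i) x b * ∑ c, (R ^ j) b c * ∑ d, (R ^ l) c d * F b c d := by
  induction i generalizing N x with
  | zero =>
    rw [pe_start N x (fun a ω => F a (ω (0 + j)) (ω (0 + j + l)))]
    simp only [zero_add]
    rw [pe_two h j l N (by omega) x (F x)]
    simp [Matrix.one_apply]
  | succ i ih =>
    obtain ⟨N, rfl⟩ : ∃ N', N = N' + 1 := ⟨N - 1, by omega⟩
    rw [pe_succ]
    have h1 : ∀ y, pe R N y (fun ω => F (pcons x ω (i + 1)) (pcons x ω (i + 1 + j))
        (pcons x ω (i + 1 + j + l))) =
        ∑ b, (R ^ i) y b * ∑ c, (R ^ j) b c * ∑ d, (R ^ l) c d * F b c d := by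
      intro y
      rw [← ih N (by omega) y]
      congr 1
      funext ω
      have h2 : i + 1 + j = (i + j) + 1 := by omega
      have h3 : i + 1 + j + l = (i + j + l) + 1 := by omega
      rw [h3, h2, pcons_succ, pcons_succ, pcons_succ]
    simp_rw [h1]
    rw [pow_succ']
    simp_rw [Matrix.mul_apply]
    have h4 : ∀ b, (∑ z, R x z * (R ^ i) z b) * ∑ c, (R ^ j) b c * ∑ d, (R ^ l) c d * F b c d =
        ∑ z, R x z * ((R ^ i) z b * ∑ c, (R ^ j) b c * ∑ d, (R ^ l) c d * F b c d) := by
      intro b
      rw [Finset.sum_mul]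
      apply Finset.sum_congr rfl
      intro z _
      ring
    rw [Finset.sum_congr rfl fun b _ => h4 b, Finset.sum_comm]
    apply Finset.sum_congr rfl
    intro y _
    rw [Finset.mul_sum]

end pe

end Pool.Agent.NPL
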