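import Pool.Agent.NPL.Path

/-!
# Runs of a stationary 0/1 sequence are convex (MP_64152e_pr)
-/

set_option autoImplicit false
set_option linter.unusedSectionVars false

namespace Pool.Agent.NPL

open Finset Matrix

variable {V : Type*} [Fintype V] [DecidableEq V]

/-- total mass of the paths all of whose windows of length `k` number `0, …, j` lie in `e` -/
noncomputable def runA (R : Matrix V V ℝ) (e : V → V → ℝ) (k j : ℕ) : ℝ :=
  ∑ x, pe R (k + j) x (fun ω => ∏ i ∈ range (j + 1), e (ω i) (ω (i + k)))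

/-- the same for the windows `1, …, j + 1`, with the window `0` not in `e` -/
noncomputable def runB (R : Matrix V V ℝ) (e : V → V → ℝ) (k j : ℕ) : ℝ :=
  ∑ x, pe R (k + j + 1) x (fun ω => (1 - e (ω 0) (ω k)) *
    ∏ i ∈ range (j + 1), e (ω (i + 1)) (ω (i + k + 1)))

lemma runA_sub {R : Matrix V V ℝ} (h : SS R) (e : V → V → ℝ) (k j : ℕ) :
    runA R e k j - runA R e k (j + 1) = runB R e k j := by
  have h1 : runA R e k j = ∑ x, pe R (k + j + 1) x (fun ω =>
      ∏ i ∈ range (j + 1), e (ω (i + 1)) (ω (i + k + 1))) :=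
    (pe_shift h (k + j) (fun ω => ∏ i ∈ range (j + 1), e (ω i) (ω (i + k)))).symm
  rw [h1, runA, runB, ← Finset.sum_sub_distrib]
  apply Finset.sum_congr rfl
  intro x _
  rw [← add_assoc, ← pe_sub]
  congr 1
  funext ω
  rw [Finset.prod_range_succ' (fun i => e (ω i) (ω (i + k))) (j + 1)]
  have h2 : ∀ i ∈ range (j + 1), e (ω (i + 1)) (ω (i + 1 + k)) =
      e (ω (i + 1)) (ω (i + k + 1)) := by
    intro i _
    rw [add_right_comm]
  rw [Finset.prod_congr rfl h2, zero_add]
  ring

lemma runB_anti {R : Matrix V V ℝ} (h : SS R) {e : V → V → ℝ} (he0 : ∀ a b, 0 ≤ e a b)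
    (he1 : ∀ a b, e a b ≤ 1) (k j : ℕ) : runB R e k (j + 1) ≤ runB R e k j := by
  apply Finset.sum_le_sum
  intro x _
  have h1 : pe R (k + j + 1 + 1) x (fun ω => (1 - e (ω 0) (ω k)) *
      ∏ i ∈ range (j + 1), e (ω (i + 1)) (ω (i + k + 1))) =
      pe R (k + j + 1) x (fun ω => (1 - e (ω 0) (ω k)) *
      ∏ i ∈ range (j + 1), e (ω (i + 1)) (ω (i + k + 1))) := by
    apply pe_last h
    intro ω ω' hω
    rw [hω 0 (by omega), hω k (by omega)]
    congr 1
    apply Finset.prod_congr rfl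
    intro i hi
    rw [Finset.mem_range] at hi
    rw [hω (i + 1) (by omega), hω (i + k + 1) (by omega)]
  rw [← h1]
  apply pe_mono h
  intro ω
  rw [Finset.prod_range_succ]
  have h2 : 0 ≤ 1 - e (ω 0) (ω k) := by linarith [he1 (ω 0) (ω k)]
  have h3 : 0 ≤ ∏ i ∈ range (j + 1), e (ω (i + 1)) (ω (i + k + 1)) :=
    Finset.prod_nonneg fun i _ => he0 _ _
  apply mul_le_mul_of_nonneg_left _ h2
  exact mul_le_of_le_one_right h3 (he1 _ _)

lemma sum_anti (B : ℕ → ℝ) (hB : ∀ i, B (i + 1) ≤ B i) (j k : ℕ) (hjk : j ≤ k) :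
    j * ∑ i ∈ range k, B i ≤ k * ∑ i ∈ range j, B i := by
  have hanti : Antitone B := antitone_nat_of_succ_le hB
  induction k, hjk using Nat.le_induction with
  | base => exact le_rfl
  | succ k hk ih =>
    rw [Finset.sum_range_succ]
    push_cast
    have h1 : (j : ℝ) * B k ≤ ∑ i ∈ range j, B i := by
      have h2 : ∑ i ∈ range j, B k ≤ ∑ i ∈ range j, B i := by
        apply Finset.sum_le_sum
        intro i hi
        rw [Finset.mem_range] at hi
        exact hanti (by omega)
      rwa [Finset.sum_const, Finset.card_range, nsmul_eq_mul] at h2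
    linarith

lemma runA_convex {R : Matrix V V ℝ} (h : SS R) {e : V → V → ℝ} (he0 : ∀ a b, 0 ≤ e a b)
    (he1 : ∀ a b, e a b ≤ 1) (k j : ℕ) (hjk : j ≤ k) :
    k * runA R e k j ≤ k * runA R e k 0 - j * (runA R e k 0 - runA R e k k) := by
  have h1 : ∀ m, runA R e k 0 - runA R e k m = ∑ i ∈ range m, runB R e k i := by
    intro m
    induction m with
    | zero => simp
    | succ m ih =>
      rw [Finset.sum_range_succ, ← ih, ← runA_sub h]
      ring
  have h2 := sum_anti (fun i => runB R e k i) (runB_anti h he0 he1 k) j k hjk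
  rw [← h1, ← h1] at h2
  linarith

lemma runA_zero {R : Matrix V V ℝ} (h : SS R) (e : V → V → ℝ) (k : ℕ) :
    runA R e k 0 = ∑ x, ∑ y, (R ^ k) x y * e x y := by
  unfold runA
  apply Finset.sum_congr rfl
  intro x _
  have h1 := pe_two h 0 k k (by omega) x e
  simp only [zero_add, pow_zero, Matrix.one_apply] at h1
  simp only [add_zero, zero_add, Finset.range_one, Finset.prod_singleton]
  rw [h1]
  simp

lemma runA_self {R : Matrix V V ℝ} (h : SS R) {e : V → V → ℝ} (he0 : ∀ a b, 0 ≤ e a b)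
    (he1 : ∀ a b, e a b ≤ 1) (k : ℕ) (hk : 1 ≤ k) :
    runA R e k k ≤ ∑ x, ∑ y, (R ^ k) x y * (e x y * ∑ z, (R ^ k) y z * e y z) := by
  unfold runA
  apply Finset.sum_le_sum
  intro x _
  have h1 := pe_three h 0 k k (k + k) (by omega) x (fun a b c => e a b * e b c)
  simp only [zero_add, pow_zero, Matrix.one_apply] at h1
  have h2 : pe R (k + k) x (fun ω => ∏ i ∈ range (k + 1), e (ω i) (ω (i + k))) ≤
      pe R (k + k) x (fun ω => e (ω 0) (ω k) * e (ω k) (ω (k + k))) := by
    apply pe_mono h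
    intro ω
    rw [Finset.prod_range_succ]
    apply mul_le_mul_of_nonneg_right _ (he0 _ _)
    obtain ⟨m, rfl⟩ : ∃ m, k = m + 1 := ⟨k - 1, by omega⟩
    rw [Finset.prod_range_succ']
    rw [zero_add]
    exact mul_le_of_le_one_left (he0 _ _) (Finset.prod_le_one (fun i _ => he0 _ _)
      (fun i _ => he1 _ _))
  refine h2.trans (le_of_eq ?_)
  rw [h1]
  have h3 : ∀ b, (if x = b then (1 : ℝ) else 0) * ∑ c, (R ^ k) b c * ∑ d, (R ^ k) c d *
      (e b c * e c d) = if x = b then ∑ c, (R ^ k) b c * ∑ d, (R ^ k) c d *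
      (e b c * e c d) else 0 := by
    intro b
    split_ifs <;> simp
  rw [Finset.sum_congr rfl fun b _ => h3 b, Finset.sum_ite_eq, if_pos (Finset.mem_univ x)]
  apply Finset.sum_congr rfl
  intro y _
  have h4 : e x y * ∑ z, (R ^ k) y z * e y z = ∑ z, (R ^ k) y z * (e x y * e y z) := by
    rw [Finset.mul_sum]
    apply Finset.sum_congr rfl
    intro z _
    ring
  rw [h4]

/-- The mass of the runs, if all the rows have the same mass `u` in `e`. -/
theorem runA_le {R : Matrix V V ℝ} (h : SS R) {e : V → V → ℝ} (he0 : ∀ a b, 0 ≤ e a b)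
    (he1 : ∀ a b, e a b ≤ 1) (k j : ℕ) (hk : 1 ≤ k) (hjk : j ≤ k) (u : ℝ)
    (hu : ∀ x, ∑ y, (R ^ k) x y * e x y = u) :
    runA R e k j ≤ Fintype.card V * (u - (j : ℝ) / k * (u * (1 - u))) := by
  have hk0 : (0 : ℝ) < k := by exact_mod_cast hk
  have h1 := runA_convex h he0 he1 k j hjk
  have h2 : runA R e k 0 = Fintype.card V * u := by
    rw [runA_zero h, Finset.sum_congr rfl fun x _ => hu x, Finset.sum_const, Finset.card_univ,
      nsmul_eq_mul]
  have h3 : runA R e k k ≤ Fintype.card V * (u * u) := by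
    refine (runA_self h he0 he1 k hk).trans (le_of_eq ?_)
    have h4 : ∀ x, ∑ y, (R ^ k) x y * (e x y * ∑ z, (R ^ k) y z * e y z) = u * u := by
      intro x
      rw [Finset.sum_congr rfl fun y _ => by rw [hu y, ← mul_assoc], ← Finset.sum_mul, hu x]
    rw [Finset.sum_congr rfl fun x _ => h4 x, Finset.sum_const, Finset.card_univ,
      nsmul_eq_mul]
  rw [h2] at h1
  have h5 : (j : ℝ) * (Fintype.card V * u - Fintype.card V * (u * u)) ≤
      j * (Fintype.card V * u - runA R e k k) :=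
    mul_le_mul_of_nonneg_left (by linarith) (Nat.cast_nonneg j)
  have h6 : k * runA R e k j ≤ k * (Fintype.card V * (u - (j : ℝ) / k * (u * (1 - u)))) := by
    have h7 : k * (Fintype.card V * (u - (j : ℝ) / k * (u * (1 - u)))) =
        k * (Fintype.card V * u) - j * (Fintype.card V * u - Fintype.card V * (u * u)) := by
      field_simp
    rw [h7]
    linarith
  exact le_of_mul_le_mul_left h6 hk0

end Pool.Agent.NPL
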