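import Pool.Agent.NPL.Uni

/-!
# Mixing times of vertex-transitive graphs at different levels (MP_64152e_pr)
-/

set_option autoImplicit false
set_option linter.unusedSectionVars false

namespace Pool.Agent.NPL

open Finset Matrix Filter Topology
open Pool.Agent.VAC (Chain tvDist tmix lazyP HasGap)

section one

variable {V : Type} [Fintype V] [DecidableEq V]

lemma regular_of_trans {G : SimpleGraph V} [DecidableRel G.Adj]
    (htr : ∀ x y : V, ∃ φ : G ≃g G, φ x = y) (o : V) : G.IsRegularOfDegree (G.degree o) := by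
  intro x
  obtain ⟨φ, rfl⟩ := htr o x
  exact SimpleGraph.Iso.degree_eq φ o

lemma homog_of_trans {G : SimpleGraph V} [DecidableRel G.Adj]
    (htr : ∀ x y : V, ∃ φ : G ≃g G, φ x = y) : Homog (lazyP G) := by
  intro x y
  obtain ⟨φ, hφ⟩ := htr x y
  refine ⟨φ.toEquiv, hφ, fun a b => ?_⟩
  have h1 : (φ a = φ b) ↔ a = b := φ.injective.eq_iff
  have h2 : G.Adj (φ a) (φ b) ↔ G.Adj a b := φ.map_adj_iff
  have h3 : G.degree (φ a) = G.degree a := SimpleGraph.Iso.degree_eq φ a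
  have h4 : lazyP G (φ a) (φ b) = lazyP G a b := by
    rw [Pool.Agent.VAC.lazyP_apply, Pool.Agent.VAC.lazyP_apply, h3]
    simp only [h1, h2]
  exact h4

/-- a gap of a lazy walk is at most one -/
lemma gap_le_one {G : SimpleGraph V} [DecidableRel G.Adj] {p lam lam' : ℝ}
    (h : Chain (lazyP G) p lam') (hn : 2 ≤ Fintype.card V) (hgap : HasGap (lazyP G) lam) :
    lam ≤ 1 := by
  obtain ⟨x, y, hxy⟩ := Fintype.exists_pair_of_one_lt_card (α := V) (by omega)
  have hlazy : ∀ x, 1 / 2 ≤ lazyP G x x := by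
    intro x
    rw [Pool.Agent.VAC.lazyP_apply]
    simp
  set f : V → ℝ := fun z => (if z = x then 1 else 0) - (if z = y then 1 else 0) with hf
  have hf0 : ∑ z, f z = 0 := by
    simp only [hf]
    rw [Finset.sum_sub_distrib]
    simp
  have h1 := Pool.Agent.VAC.contract h.nn h.row h.sym hlazy hgap f hf0
  have h2 : 0 ≤ ∑ z, (lazyP G *ᵥ f) z ^ 2 := Finset.sum_nonneg fun z _ => sq_nonneg _
  have h3 : 0 < ∑ z, f z ^ 2 := by
    apply Finset.sum_pos' (fun z _ => sq_nonneg _)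
    refine ⟨x, Finset.mem_univ x, ?_⟩
    have h4 : f x = 1 := by simp [hf, hxy]
    rw [h4]
    norm_num
  by_contra hc
  push Not at hc
  have h4 : (1 - lam) * ∑ z, f z ^ 2 < 0 := mul_neg_of_neg_of_pos (by linarith) h3
  linarith

lemma tmix_of_card_one (P : Matrix V V ℝ) (hn : Fintype.card V ≤ 1) {a : ℝ} (ha : 0 ≤ a) :
    tmix P a = 0 := by
  have h1 : tmix P a ≤ 0 := by
    apply Nat.sInf_le
    intro x
    have hs : Subsingleton V := Fintype.card_le_one_iff_subsingleton.1 hn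
    have hc : Fintype.card V = 1 :=
      le_antisymm hn (Nat.succ_le_of_lt (Fintype.card_pos_iff.2 ⟨x⟩))
    have h2 : tvDist P 0 x = 0 := by
      unfold tvDist
      have h3 : ∀ y : V, |(P ^ 0) x y - 1 / (Fintype.card V : ℝ)| = 0 := by
        intro y
        rw [hc, pow_zero, Subsingleton.elim y x, Matrix.one_apply_eq]
        simp
      rw [Finset.sum_congr rfl fun y _ => h3 y]
      simp
    rw [h2]
    exact ha
  omega

end one

/-- The inequality for all finite connected vertex-transitive graphs. -/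
theorem uni_graph (b θ η a : ℝ) (hb0 : 0 < b) (hb1 : b < 1) (hθ0 : 0 ≤ θ) (hθ1 : θ ≤ 1)
    (hη : 0 < η) (m : ℕ) (hm : 1 ≤ m) (ha : b ^ m * (1 - θ * (1 - b)) ≤ a) :
    ∃ c : ℝ, 0 ≤ c ∧ ∀ (V : Type) [Fintype V] [DecidableEq V] (G : SimpleGraph V)
      [DecidableRel G.Adj] (lam : ℝ), G.Connected → (∀ x y : V, ∃ φ : G ≃g G, φ x = y) →
      0 < lam → HasGap (lazyP G) lam →
        (tmix (lazyP G) a : ℝ) ≤ (m + θ + η) * tmix (lazyP G) b + c / lam := by
  obtain ⟨c, hc⟩ := uni_closed b θ η hb0 hb1 hθ0 hθ1 hη m hm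
  have hval : 0 < b ^ m * (1 - θ * (1 - b)) := by
    apply mul_pos (pow_pos hb0 _)
    nlinarith
  refine ⟨|c|, abs_nonneg c, ?_⟩
  intro V _ _ G _ lam hconn htr hl hgap
  by_cases hn : 2 ≤ Fintype.card V
  · obtain ⟨o⟩ := hconn.nonempty
    have hreg := regular_of_trans htr o
    obtain ⟨_, h⟩ := Pool.Agent.VAC.exists_chain hconn hn hreg le_rfl hl hgap
    have hl1 : lam ≤ 1 := gap_le_one h hn hgap
    rw [min_eq_left hl1] at h
    have h1 := hc V (lazyP G) _ lam h (homog_of_trans htr)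
    have h2 : (tmix (lazyP G) a : ℝ) ≤ tmix (lazyP G) (b ^ m * (1 - θ * (1 - b))) := by
      exact_mod_cast h.tmix_mono hval ha
    have h3 : c / lam ≤ |c| / lam := div_le_div_of_nonneg_right (le_abs_self c) hl.le
    linarith
  · rw [tmix_of_card_one (lazyP G) (by omega) (hval.le.trans ha)]
    have h1 : 0 ≤ (m + θ + η) * (tmix (lazyP G) b : ℝ) :=
      mul_nonneg (by positivity) (Nat.cast_nonneg _)
    have h2 : 0 ≤ |c| / lam := by positivity
    push_cast
    linarith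

/-- Sequences of vertex-transitive graphs with the product condition. -/
theorem seq_prod (V : ℕ → Type) [∀ n, Fintype (V n)] [∀ n, DecidableEq (V n)]
    (G : ∀ n, SimpleGraph (V n)) [∀ n, DecidableRel (G n).Adj] (lam : ℕ → ℝ)
    (hconn : ∀ n, (G n).Connected) (htr : ∀ n, ∀ x y : V n, ∃ φ : G n ≃g G n, φ x = y)
    (hl : ∀ n, 0 < lam n) (hgap : ∀ n, HasGap (lazyP (G n)) (lam n))
    (hprod : Tendsto (fun n => lam n * (tmix (lazyP (G n)) (1 / 4) : ℝ)) atTop atTop)
    (b θ η a : ℝ) (hb0 : 0 < b) (hb1 : b < 1) (hθ0 : 0 ≤ θ) (hθ1 : θ ≤ 1)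
    (hη : 0 < η) (m : ℕ) (hm : 1 ≤ m) (ha : b ^ m * (1 - θ * (1 - b)) ≤ a) :
    ∀ᶠ n in atTop, (tmix (lazyP (G n)) a : ℝ) ≤ (m + θ + η) * tmix (lazyP (G n)) b := by
  obtain ⟨c1, hc10, hc1⟩ := uni_graph b θ (η / 2) a hb0 hb1 hθ0 hθ1 (by linarith) m hm ha
  obtain ⟨M, hM⟩ := exists_pow_lt_of_lt_one (show (0 : ℝ) < 1 / 4 by norm_num) hb1
  have hM1 : 1 ≤ M := by
    by_contra hc
    have hM0 : M = 0 := by omega
    rw [hM0] at hM
    norm_num at hM
  obtain ⟨c2, hc20, hc2⟩ := uni_graph b 0 1 (1 / 4) hb0 hb1 le_rfl zero_le_one one_pos M hM1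
    (by
      rw [zero_mul, sub_zero, mul_one]
      exact hM.le)
  have hbig := hprod.eventually_ge_atTop ((M + 1) * (2 * c1 / η) + c2)
  filter_upwards [hbig] with n hn
  have h1 := hc1 (V n) (G n) (lam n) (hconn n) (htr n) (hl n) (hgap n)
  have h2 := hc2 (V n) (G n) (lam n) (hconn n) (htr n) (hl n) (hgap n)
  have hln := hl n
  set T : ℝ := (tmix (lazyP (G n)) b : ℝ) with hT
  have h3 : lam n * (tmix (lazyP (G n)) (1 / 4) : ℝ) ≤ (M + 1) * (lam n * T) + c2 := by
    have h4 := mul_le_mul_of_nonneg_left h2 hln.le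
    have h5 : lam n * ((M + 0 + 1) * T + c2 / lam n) = (M + 1) * (lam n * T) + c2 := by
      field_simp
      ring
    rwa [h5] at h4
  have h4 : (M + 1 : ℝ) * (2 * c1 / η) ≤ (M + 1) * (lam n * T) := by linarith
  have h5 : 2 * c1 / η ≤ lam n * T := le_of_mul_le_mul_left h4 (by positivity)
  have h6 : c1 / lam n ≤ η / 2 * T := by
    rw [div_le_iff₀ hln]
    rw [div_le_iff₀ hη] at h5
    linarith
  linarith

/-- The product condition for expanders of bounded degree. -/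
theorem prod_of_expander (V : ℕ → Type) [∀ n, Fintype (V n)] [∀ n, DecidableEq (V n)]
    (G : ∀ n, SimpleGraph (V n)) [∀ n, DecidableRel (G n).Adj] (lam : ℝ) (D : ℕ)
    (hcard : Tendsto (fun n => Fintype.card (V n)) atTop atTop)
    (hconn : ∀ n, (G n).Connected) (htr : ∀ n, ∀ x y : V n, ∃ φ : G n ≃g G n, φ x = y)
    (hD : ∀ n (x : V n), (G n).degree x ≤ D)
    (hl : 0 < lam) (hgap : ∀ n, HasGap (lazyP (G n)) lam) :
    Tendsto (fun n => lam * (tmix (lazyP (G n)) (1 / 4) : ℝ)) atTop atTop := by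
  have hcardR : Tendsto (fun n => Real.log (Fintype.card (V n) : ℝ)) atTop atTop :=
    Real.tendsto_log_atTop.comp (tendsto_natCast_atTop_atTop.comp hcard)
  rw [tendsto_atTop]
  intro B
  set L := Real.log (2 * (D + 1 : ℕ)) with hL
  have hL0 : 0 < L := by
    apply Real.log_pos
    push_cast
    have : (0 : ℝ) ≤ D := Nat.cast_nonneg D
    linarith
  filter_upwards [hcard.eventually_ge_atTop 2,
    hcardR.eventually_ge_atTop (L * (|B| / lam) - Real.log (1 / 2))] with n hn2 hn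
  obtain ⟨o⟩ := (hconn n).nonempty
  have hreg := regular_of_trans (htr n) o
  have hdeg : (G n).degree o ≤ D + 1 := (hD n o).trans (Nat.le_succ D)
  obtain ⟨_, h⟩ := Pool.Agent.VAC.exists_chain (hconn n) hn2 hreg hdeg hl (hgap n)
  have h1 := Pool.Agent.VAC.tmix_lower (hconn n) hn2 hreg hdeg hl (hgap n)
    (ε := 1 / 2) (by norm_num) le_rfl
  have h2 : (tmix (lazyP (G n)) (1 - 1 / 2) : ℝ) ≤ tmix (lazyP (G n)) (1 / 4) := by
    exact_mod_cast h.tmix_mono (by norm_num) (by norm_num)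
  have h3 : L * (|B| / lam) ≤ L * (tmix (lazyP (G n)) (1 / 4) : ℝ) := by
    have h4 : L * (tmix (lazyP (G n)) (1 - 1 / 2) : ℝ) ≤
        L * (tmix (lazyP (G n)) (1 / 4) : ℝ) := mul_le_mul_of_nonneg_left h2 hL0.le
    linarith
  have h4 := le_of_mul_le_mul_left h3 hL0
  rw [div_le_iff₀ hl] at h4
  have h5 := le_abs_self B
  linarith

end Pool.Agent.NPL
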