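import Pool.Agent.NPL.Run

/-!
# Large transition probabilities over longer times (MP_64152e_pr)
-/

set_option autoImplicit false
set_option linter.unusedSectionVars false

namespace Pool.Agent.NPL

open Finset Matrix

variable {V : Type*} [Fintype V] [DecidableEq V]

/-- indicator of a large transition probability: `K / n < R x y` -/
noncomputable def big (R : Matrix V V ℝ) (K : ℝ) (x y : V) : ℝ :=
  if K / Fintype.card V < R x y then 1 else 0

lemma big_nonneg (R : Matrix V V ℝ) (K : ℝ) (x y : V) : 0 ≤ big R K x y := by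
  unfold big
  split_ifs <;> norm_num

lemma big_le_one (R : Matrix V V ℝ) (K : ℝ) (x y : V) : big R K x y ≤ 1 := by
  unfold big
  split_ifs <;> norm_num

lemma mul_one_sub_big {R : Matrix V V ℝ} {K : ℝ} (hK : 0 ≤ K) (x y : V) :
    R x y * (1 - big R K x y) ≤ K / Fintype.card V := by
  unfold big
  split_ifs with h
  · rw [sub_self, mul_zero]
    positivity
  · push Not at h
    rw [sub_zero, mul_one]
    exact h

lemma sum_big_le {R : Matrix V V ℝ} (h : SS R) [Nonempty V] {K : ℝ} (hK : 0 < K) (x : V) :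
    ∑ y, big R K x y ≤ Fintype.card V / K := by
  have hn : (0 : ℝ) < Fintype.card V := by exact_mod_cast Fintype.card_pos
  have h1 : ∑ y, big R K x y * (K / Fintype.card V) ≤ ∑ y, R x y := by
    apply Finset.sum_le_sum
    intro y _
    unfold big
    split_ifs with h2
    · rw [one_mul]
      exact h2.le
    · rw [zero_mul]
      exact h.nn x y
  rw [← Finset.sum_mul, h.row, ← le_div_iff₀ (by positivity)] at h1
  rwa [one_div_div] at h1

lemma one_sub_prod_le (m : ℕ) (a : ℕ → ℝ) (h0 : ∀ i, 0 ≤ a i) (h1 : ∀ i, a i ≤ 1) :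
    1 - ∏ i ∈ range m, a i ≤ ∑ i ∈ range m, (1 - a i) := by
  induction m with
  | zero => simp
  | succ m ih =>
    rw [Finset.prod_range_succ, Finset.sum_range_succ]
    have h2 : 0 ≤ ∏ i ∈ range m, a i := Finset.prod_nonneg fun i _ => h0 i
    have h3 : ∏ i ∈ range m, a i ≤ 1 := Finset.prod_le_one (fun i _ => h0 i) fun i _ => h1 i
    have h4 : 0 ≤ (1 - ∏ i ∈ range m, a i) * (1 - a m) :=
      mul_nonneg (by linarith) (by linarith [h1 m])
    nlinarith

/-- one window which is not large -/
lemma window_le {R : Matrix V V ℝ} (h : SS R) [Nonempty V] {K L : ℝ} (hK : 0 < K) (hL : 0 < L)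
    (k j i : ℕ) (hij : i ≤ j) (x : V) :
    pe R (k + j) x (fun ω => big (R ^ (k + j)) (K * L) (ω 0) (ω (k + j)) *
      (1 - big (R ^ k) K (ω i) (ω (i + k)))) ≤ 1 / L := by
  have hn : (0 : ℝ) < Fintype.card V := by exact_mod_cast Fintype.card_pos
  set e' : V → ℝ := fun d => big (R ^ (k + j)) (K * L) x d with he'
  have h1 : pe R (k + j) x (fun ω => big (R ^ (k + j)) (K * L) (ω 0) (ω (k + j)) *
      (1 - big (R ^ k) K (ω i) (ω (i + k)))) =
      pe R (k + j) x (fun ω => e' (ω (i + k + (j - i))) *
      (1 - big (R ^ k) K (ω i) (ω (i + k)))) := by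
    rw [pe_start (k + j) x (fun a ω => big (R ^ (k + j)) (K * L) a (ω (k + j)) *
      (1 - big (R ^ k) K (ω i) (ω (i + k))))]
    have h2 : i + k + (j - i) = k + j := by omega
    rw [h2]
  rw [h1, pe_three h i k (j - i) (k + j) (by omega) x
    (fun b c d => e' d * (1 - big (R ^ k) K b c))]
  have he'0 : ∀ d, 0 ≤ e' d := fun d => big_nonneg _ _ _ _
  have h3 : ∀ b, ∑ c, (R ^ k) b c * ∑ d, (R ^ (j - i)) c d * (e' d * (1 - big (R ^ k) K b c)) ≤
      K / Fintype.card V * ∑ d, e' d := by
    intro b
    have h4 : ∀ c, (R ^ k) b c * ∑ d, (R ^ (j - i)) c d * (e' d * (1 - big (R ^ k) K b c)) =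
        ((R ^ k) b c * (1 - big (R ^ k) K b c)) * ∑ d, (R ^ (j - i)) c d * e' d := by
      intro c
      rw [Finset.mul_sum, Finset.mul_sum]
      apply Finset.sum_congr rfl
      intro d _
      ring
    rw [Finset.sum_congr rfl fun c _ => h4 c]
    calc ∑ c, ((R ^ k) b c * (1 - big (R ^ k) K b c)) * ∑ d, (R ^ (j - i)) c d * e' d
        ≤ ∑ c, K / Fintype.card V * ∑ d, (R ^ (j - i)) c d * e' d := by
          apply Finset.sum_le_sum
          intro c _
          apply mul_le_mul_of_nonneg_right (mul_one_sub_big hK.le b c)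
          exact Finset.sum_nonneg fun d _ => mul_nonneg ((h.pow _).nn c d) (he'0 d)
      _ = K / Fintype.card V * ∑ d, e' d := by
          rw [← Finset.mul_sum, Finset.sum_comm]
          congr 1
          apply Finset.sum_congr rfl
          intro d _
          rw [← Finset.sum_mul, (h.pow _).col, one_mul]
  have h5 : ∑ d, e' d ≤ Fintype.card V / (K * L) := sum_big_le (h.pow _) (by positivity) x
  calc ∑ b, (R ^ i) x b * ∑ c, (R ^ k) b c * ∑ d, (R ^ (j - i)) c d *
        (e' d * (1 - big (R ^ k) K b c))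
      ≤ ∑ b, (R ^ i) x b * (K / Fintype.card V * ∑ d, e' d) := by
        apply Finset.sum_le_sum
        intro b _
        exact mul_le_mul_of_nonneg_left (h3 b) ((h.pow _).nn x b)
    _ = K / Fintype.card V * ∑ d, e' d := by rw [← Finset.sum_mul, (h.pow _).row, one_mul]
    _ ≤ K / Fintype.card V * (Fintype.card V / (K * L)) :=
        mul_le_mul_of_nonneg_left h5 (by positivity)
    _ = 1 / L := by field_simp

/-- The mass of the large transition probabilities after a longer time. -/
theorem big_mass {R : Matrix V V ℝ} (h : SS R) [Nonempty V] {K L : ℝ} (hK : 0 < K)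
    (hL : 0 < L) (k j : ℕ) (hk : 1 ≤ k) (hjk : j ≤ k) (u u' : ℝ)
    (hu : ∀ x, ∑ y, (R ^ k) x y * big (R ^ k) K x y = u)
    (hu' : ∀ x, ∑ y, (R ^ (k + j)) x y * big (R ^ (k + j)) (K * L) x y = u') :
    u' ≤ u - (j : ℝ) / k * (u * (1 - u)) + (j + 1) / L := by
  have hn : (0 : ℝ) < Fintype.card V := by exact_mod_cast Fintype.card_pos
  have h1 : ∑ x, pe R (k + j) x (fun ω => big (R ^ (k + j)) (K * L) (ω 0) (ω (k + j))) =
      Fintype.card V * u' := by
    have h2 : ∀ x, pe R (k + j) x (fun ω => big (R ^ (k + j)) (K * L) (ω 0) (ω (k + j))) =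
        u' := by
      intro x
      rw [pe_start (k + j) x (fun a ω => big (R ^ (k + j)) (K * L) a (ω (k + j))),
        pe_one h (k + j) (k + j) le_rfl x (fun d => big (R ^ (k + j)) (K * L) x d), hu' x]
    rw [Finset.sum_congr rfl fun x _ => h2 x, Finset.sum_const, Finset.card_univ,
      nsmul_eq_mul]
  have h2 : ∑ x, pe R (k + j) x (fun ω => big (R ^ (k + j)) (K * L) (ω 0) (ω (k + j))) ≤
      runA R (big (R ^ k) K) k j + Fintype.card V * ((j + 1) / L) := by
    have h3 : ∀ x, pe R (k + j) x (fun ω => big (R ^ (k + j)) (K * L) (ω 0) (ω (k + j))) ≤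
        pe R (k + j) x (fun ω => ∏ i ∈ range (j + 1), big (R ^ k) K (ω i) (ω (i + k))) +
          (j + 1) / L := by
      intro x
      calc pe R (k + j) x (fun ω => big (R ^ (k + j)) (K * L) (ω 0) (ω (k + j)))
          ≤ pe R (k + j) x (fun ω =>
            (∏ i ∈ range (j + 1), big (R ^ k) K (ω i) (ω (i + k))) +
            ∑ i ∈ range (j + 1), big (R ^ (k + j)) (K * L) (ω 0) (ω (k + j)) *
              (1 - big (R ^ k) K (ω i) (ω (i + k)))) := by
            apply pe_mono h
            intro ω
            rw [← Finset.mul_sum]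
            have h4 := one_sub_prod_le (j + 1) (fun i => big (R ^ k) K (ω i) (ω (i + k)))
              (fun i => big_nonneg _ _ _ _) (fun i => big_le_one _ _ _ _)
            have h5 := big_nonneg (R ^ (k + j)) (K * L) (ω 0) (ω (k + j))
            have h6 := big_le_one (R ^ (k + j)) (K * L) (ω 0) (ω (k + j))
            have h7 : 0 ≤ ∏ i ∈ range (j + 1), big (R ^ k) K (ω i) (ω (i + k)) :=
              Finset.prod_nonneg fun i _ => big_nonneg _ _ _ _
            nlinarith [mul_le_mul_of_nonneg_left h4 h5, mul_nonneg (sub_nonneg.2 h6) h7]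
        _ = pe R (k + j) x (fun ω => ∏ i ∈ range (j + 1), big (R ^ k) K (ω i) (ω (i + k))) +
            ∑ i ∈ range (j + 1), pe R (k + j) x (fun ω =>
              big (R ^ (k + j)) (K * L) (ω 0) (ω (k + j)) *
              (1 - big (R ^ k) K (ω i) (ω (i + k)))) := by
            rw [pe_add, pe_sum]
        _ ≤ pe R (k + j) x (fun ω => ∏ i ∈ range (j + 1), big (R ^ k) K (ω i) (ω (i + k))) +
            ∑ i ∈ range (j + 1), 1 / L := by
            gcongr with i hi
            rw [Finset.mem_range] at hi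
            exact window_le h hK hL k j i (by omega) x
        _ = _ := by
            rw [Finset.sum_const, Finset.card_range, nsmul_eq_mul]
            push_cast
            ring
    calc _ ≤ ∑ x, (pe R (k + j) x (fun ω => ∏ i ∈ range (j + 1),
            big (R ^ k) K (ω i) (ω (i + k))) + (j + 1) / L) :=
          Finset.sum_le_sum fun x _ => h3 x
      _ = _ := by
          rw [Finset.sum_add_distrib, Finset.sum_const, Finset.card_univ, nsmul_eq_mul]
          rfl
  have h3 := runA_le h (big_nonneg (R ^ k) K) (big_le_one (R ^ k) K) k j hk hjk u hu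
  rw [h1] at h2
  have h4 : (Fintype.card V : ℝ) * u' ≤
      Fintype.card V * (u - (j : ℝ) / k * (u * (1 - u)) + (j + 1) / L) := by
    rw [mul_add]
    linarith
  exact le_of_mul_le_mul_left h4 hn

end Pool.Agent.NPL
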