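import Pool.Agent.NPL.Mix

/-!
# Universal inequalities between mixing times (MP_64152e_pr)
-/

set_option autoImplicit false
set_option linter.unusedSectionVars false

namespace Pool.Agent.NPL

open Finset Matrix
open Pool.Agent.VAC (Chain tvDist tmix)

lemma tvDist_of_le {V : Type} [Fintype V] [DecidableEq V] {P : Matrix V V ℝ} {p lam : ℝ}
    (h : Chain P p lam) {b : ℝ} (hb : 0 < b) {t : ℕ} (ht : tmix P b ≤ t) (x : V) :
    tvDist P t x ≤ b := by
  obtain ⟨s, rfl⟩ := Nat.exists_eq_add_of_le ht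
  exact (tvDist_anti (ss_of_chain h) _ _ _).trans (h.tmix_mem' hb x)

lemma exists_r {V : Type} [Fintype V] [DecidableEq V] {P : Matrix V V ℝ} {p lam : ℝ}
    (h : Chain P p lam) {M ε : ℝ} (hM : 0 < M) (hε : 0 < ε) :
    ∃ r : ℕ, (1 - lam) ^ r * M ≤ ε ^ 2 ∧ (r : ℝ) ≤ |Real.log (M / ε ^ 2)| / lam + 1 := by
  have hl := h.lam0
  refine ⟨⌈|Real.log (M / ε ^ 2)| / lam⌉₊, ?_, ?_⟩
  · have h1 : Real.log (M / ε ^ 2) ≤ lam * (⌈|Real.log (M / ε ^ 2)| / lam⌉₊ : ℝ) := by
      have h2 := Nat.le_ceil (|Real.log (M / ε ^ 2)| / lam)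
      rw [div_le_iff₀ hl] at h2
      have h3 := le_abs_self (Real.log (M / ε ^ 2))
      linarith
    have h2 := h.one_sub_pow_le ⌈|Real.log (M / ε ^ 2)| / lam⌉₊ (a := M / ε ^ 2)
      (by positivity) h1
    calc (1 - lam) ^ ⌈|Real.log (M / ε ^ 2)| / lam⌉₊ * M ≤ 1 / (M / ε ^ 2) * M :=
          mul_le_mul_of_nonneg_right h2 hM.le
      _ = ε ^ 2 := by field_simp
  · exact (Nat.ceil_lt_add_one (by positivity)).le

/-- The inequality `T(a) ≤ (1 + θ) T(b) + c / λ` for `a > (1 - θ) b + θ b²`. -/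
theorem uni_one (b θ a : ℝ) (hb0 : 0 < b) (hb1 : b < 1) (hθ0 : 0 ≤ θ) (hθ1 : θ ≤ 1)
    (ha : FF θ b < a) :
    ∃ c : ℝ, ∀ (V : Type) [Fintype V] [DecidableEq V] (P : Matrix V V ℝ) (p lam : ℝ),
      Chain P p lam → Homog P → (tmix P a : ℝ) ≤ (1 + θ) * tmix P b + c / lam := by
  -- rational approximation of `θ`
  obtain ⟨k, hk⟩ := exists_nat_gt (1 / (a - FF θ b))
  have hab : 0 < a - FF θ b := by linarith
  have hk0 : (0 : ℝ) < k := lt_trans (by positivity) hk
  have hk1 : 1 ≤ k := by exact_mod_cast Nat.one_le_iff_ne_zero.2 (by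
    intro h0
    rw [h0] at hk0
    norm_num at hk0)
  set j : ℕ := ⌊θ * k⌋₊ with hj
  have hj1 : (j : ℝ) ≤ θ * k := Nat.floor_le (by positivity)
  have hj2 : θ * k < j + 1 := Nat.lt_floor_add_one _
  have hjk : j ≤ k := by
    have h1 : (j : ℝ) ≤ k := hj1.trans (by nlinarith)
    exact_mod_cast h1
  have hq1 : (j : ℝ) / k ≤ θ := by rwa [div_le_iff₀ hk0]
  have hq2 : θ - (j : ℝ) / k ≤ 1 / k := by
    rw [sub_le_iff_le_add, ← add_div, le_div_iff₀ hk0]
    linarith
  have hq0 : 0 ≤ (j : ℝ) / k := by positivity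
  have hFF : FF ((j : ℝ) / k) b < a := by
    have h1 : FF ((j : ℝ) / k) b = FF θ b + (θ - (j : ℝ) / k) * (b * (1 - b)) := by
      unfold FF
      ring
    have h2 : b * (1 - b) ≤ 1 := by nlinarith
    have h3 : 0 ≤ b * (1 - b) := mul_nonneg hb0.le (by linarith)
    have h4 : (θ - (j : ℝ) / k) * (b * (1 - b)) ≤ 1 / k * 1 := by
      apply mul_le_mul hq2 h2 h3 (by positivity)
    have h5 : 1 / (k : ℝ) < a - FF θ b := by
      rw [div_lt_iff₀ hk0]
      rw [div_lt_iff₀ hab] at hk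
      linarith
    linarith
  set ε := a - FF ((j : ℝ) / k) b with hε
  have hε0 : 0 < ε := by linarith
  set K := 8 / ε with hK
  have hK0 : 0 < K := by positivity
  set L := 4 * (k + 1) / ε with hL
  have hL0 : 0 < L := by positivity
  refine ⟨2 * k + 1 + |Real.log (K * L / ε ^ 2)|, ?_⟩
  intro V _ _ P p lam h hP
  obtain ⟨r, hr1, hr2⟩ := exists_r h (mul_pos hK0 hL0) hε0
  have hss := ss_of_chain h
  have hl := h.lam0
  set T := tmix P b with hT
  set s := T / k + 1 with hs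
  have hsk : T ≤ s * k := by
    have h1 : T < k * (T / k + 1) := by
      have := Nat.div_add_mod T k
      have h2 := Nat.mod_lt T (by omega : k > 0)
      calc T = k * (T / k) + T % k := this.symm
        _ < k * (T / k) + k := by omega
        _ = _ := by ring
    rw [hs, mul_comm]
    exact h1.le
  have hs' : (s : ℝ) ≤ T / k + 1 := by
    rw [hs]
    push_cast
    have := @Nat.cast_div_le ℝ _ _ _ T k
    linarith
  have hmix : tmix P a ≤ s * (k + j) + r := by
    apply Nat.sInf_le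
    intro x
    have h1 := main_step h hP s k j r hk1 hjk x hK0 hL0 hε0.le hr1
    have h2 : FF ((j : ℝ) / k) (tvDist P (s * k) x) ≤ FF ((j : ℝ) / k) b := by
      have h3 := FF_le hq0 (hq1.trans hθ1) (tvDist_nonneg (P := P) (s * k) x)
        (tvDist_le_one hss _ x) hb1.le le_rfl
        (by simpa using tvDist_of_le h hb0 hsk x) hb0.le
      linarith
    have h3 : 2 / K = ε / 4 := by
      rw [hK]
      field_simp
      norm_num
    have h4 : ((j : ℝ) + 1) / L ≤ ε / 4 := by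
      rw [div_le_iff₀ hL0, hL]
      have h5 : ε / 4 * (4 * ((k : ℝ) + 1) / ε) = k + 1 := by field_simp
      rw [h5]
      have : (j : ℝ) ≤ k := by exact_mod_cast hjk
      linarith
    linarith
  have hmix' : (tmix P a : ℝ) ≤ s * (k + j) + r := by exact_mod_cast hmix
  have h1 : (s : ℝ) * (k + j) ≤ (T / k + 1) * (k + j) :=
    mul_le_mul_of_nonneg_right hs' (by positivity)
  have h2 : ((T : ℝ) / k + 1) * (k + j) = (1 + (j : ℝ) / k) * T + (k + j) := by
    field_simp
  have h3 : (1 + (j : ℝ) / k) * T ≤ (1 + θ) * T :=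
    mul_le_mul_of_nonneg_right (by linarith) (Nat.cast_nonneg _)
  have h4 : (j : ℝ) ≤ k := by exact_mod_cast hjk
  have h5 : (2 * k + 1 : ℝ) ≤ (2 * k + 1) / lam := by
    rw [le_div_iff₀ hl]
    have := h.lam1
    nlinarith
  have h6 : (2 * k + 1 + |Real.log (K * L / ε ^ 2)|) / lam =
      (2 * k + 1) / lam + |Real.log (K * L / ε ^ 2)| / lam := add_div _ _ _
  rw [h6]
  linarith

/-- The inequality `T(a) ≤ T(b) + T(b') + c / λ` for `a > b b'`. -/
theorem uni_mul (b b' a : ℝ) (hb0 : 0 < b) (hb0' : 0 < b') (ha : b * b' < a) :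
    ∃ c : ℝ, ∀ (V : Type) [Fintype V] [DecidableEq V] (P : Matrix V V ℝ) (p lam : ℝ),
      Chain P p lam → (tmix P a : ℝ) ≤ tmix P b + tmix P b' + c / lam := by
  set ε := a - b * b' with hε
  have hε0 : 0 < ε := by linarith
  set K := 2 * b' / ε with hK
  have hK0 : 0 < K := by positivity
  refine ⟨1 + |Real.log (K / ε ^ 2)|, ?_⟩
  intro V _ _ P p lam h
  obtain ⟨r, hr1, hr2⟩ := exists_r h hK0 hε0
  have hl := h.lam0
  have hmix : tmix P a ≤ tmix P b + (tmix P b' + r) := by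
    apply Nat.sInf_le
    intro x
    have h1 := submult h (tmix P b) r (tmix P b') x hK0 hε0.le hr1 (h.tmix_mem' hb0 x)
      (h.tmix_mem' hb0')
    have h2 : 1 / K * b' = ε / 2 := by
      rw [hK]
      field_simp
    have h3 : ε / 2 + (b + 1 / K) * b' = a := by
      rw [add_mul, h2]
      linarith
    linarith
  have hmix' : (tmix P a : ℝ) ≤ tmix P b + (tmix P b' + r) := by exact_mod_cast hmix
  have h5 : (1 : ℝ) ≤ 1 / lam := by
    rw [le_div_iff₀ hl]
    linarith [h.lam1]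
  rw [add_div]
  linarith

/-- The inequality `T(a) ≤ (m + θ) T(b) + c / λ` for `a > b^m (1 - θ (1 - b))`. -/
theorem uni_pow (b θ : ℝ) (hb0 : 0 < b) (hb1 : b < 1) (hθ0 : 0 ≤ θ) (hθ1 : θ ≤ 1) (m : ℕ)
    (a : ℝ) (ha : b ^ (m + 1) * (1 - θ * (1 - b)) < a) :
    ∃ c : ℝ, ∀ (V : Type) [Fintype V] [DecidableEq V] (P : Matrix V V ℝ) (p lam : ℝ),
      Chain P p lam → Homog P →
        (tmix P a : ℝ) ≤ ((m + 1 : ℕ) + θ) * tmix P b + c / lam := by
  induction m generalizing a with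
  | zero =>
    obtain ⟨c, hc⟩ := uni_one b θ a hb0 hb1 hθ0 hθ1 (by
      unfold FF
      rw [zero_add, pow_one] at ha
      linarith)
    refine ⟨c, ?_⟩
    intro V _ _ P p lam h hP
    have h1 := hc V P p lam h hP
    simpa using h1
  | succ m ih =>
    set w := b ^ (m + 1) * (1 - θ * (1 - b)) with hw
    have hw0 : 0 < w := by
      apply mul_pos (pow_pos hb0 _)
      nlinarith
    have hbw : b ^ (m + 1 + 1) * (1 - θ * (1 - b)) = b * w := by
      rw [hw]
      ring
    rw [hbw] at ha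
    set a' := w + (a - b * w) / 2 with ha'
    have h1 : w < a' := by linarith
    have h2 : b * a' < a := by
      have h3 : b * ((a - b * w) / 2) ≤ 1 * ((a - b * w) / 2) :=
        mul_le_mul_of_nonneg_right hb1.le (by linarith)
      rw [ha', mul_add]
      linarith
    obtain ⟨c, hc⟩ := ih a' h1
    obtain ⟨c', hc'⟩ := uni_mul b a' a hb0 (by linarith) h2
    refine ⟨c + c', ?_⟩
    intro V _ _ P p lam h hP
    have h3 := hc V P p lam h hP
    have h4 := hc' V P p lam h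
    rw [add_div]
    push_cast at h3 ⊢
    linarith

/-- Closed form, with an arbitrarily small loss in the factor. -/
theorem uni_closed (b θ η : ℝ) (hb0 : 0 < b) (hb1 : b < 1) (hθ0 : 0 ≤ θ) (hθ1 : θ ≤ 1)
    (hη : 0 < η) (m : ℕ) (hm : 1 ≤ m) :
    ∃ c : ℝ, ∀ (V : Type) [Fintype V] [DecidableEq V] (P : Matrix V V ℝ) (p lam : ℝ),
      Chain P p lam → Homog P →
        (tmix P (b ^ m * (1 - θ * (1 - b))) : ℝ) ≤ (m + θ + η) * tmix P b + c / lam := by
  obtain ⟨m, rfl⟩ : ∃ m', m = m' + 1 := ⟨m - 1, by omega⟩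
  rcases hθ1.lt_or_eq with hθ | hθ
  · set θ' := min 1 (θ + η) with hθ'
    have h1 : θ < θ' := lt_min hθ (by linarith)
    obtain ⟨c, hc⟩ := uni_pow b θ' hb0 hb1 (by linarith) (min_le_left _ _) m
      (b ^ (m + 1) * (1 - θ * (1 - b))) (by
        apply mul_lt_mul_of_pos_left _ (pow_pos hb0 _)
        have : θ * (1 - b) < θ' * (1 - b) := mul_lt_mul_of_pos_right h1 (by linarith)
        linarith)
    refine ⟨c, ?_⟩
    intro V _ _ P p lam h hP
    refine (hc V P p lam h hP).trans ?_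
    have h2 : θ' ≤ θ + η := min_le_right _ _
    have h3 : (((m + 1 : ℕ) : ℝ) + θ') * tmix P b ≤ (((m + 1 : ℕ) : ℝ) + θ + η) * tmix P b :=
      mul_le_mul_of_nonneg_right (by linarith) (Nat.cast_nonneg _)
    linarith
  · set θ' := min 1 η with hθ'
    have h1 : 0 < θ' := lt_min one_pos hη
    obtain ⟨c, hc⟩ := uni_pow b θ' hb0 hb1 h1.le (min_le_left _ _) (m + 1)
      (b ^ (m + 1) * (1 - θ * (1 - b))) (by
        have h2 : b ^ (m + 1) * (1 - θ * (1 - b)) = b ^ (m + 1 + 1) * 1 := by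
          rw [hθ]
          ring
        rw [h2]
        apply mul_lt_mul_of_pos_left _ (pow_pos hb0 _)
        have : 0 < θ' * (1 - b) := mul_pos h1 (by linarith)
        linarith)
    refine ⟨c, ?_⟩
    intro V _ _ P p lam h hP
    refine (hc V P p lam h hP).trans ?_
    have h2 : θ' ≤ η := min_le_right _ _
    have h3 : (((m + 1 + 1 : ℕ) : ℝ) + θ') * tmix P b ≤
        (((m + 1 : ℕ) : ℝ) + θ + η) * tmix P b := by
      apply mul_le_mul_of_nonneg_right _ (Nat.cast_nonneg _)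
      rw [hθ]
      push_cast
      linarith
    linarith

end Pool.Agent.NPL
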